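import Pool.Agent.H375R3.Pol.Orb
import Pool.Agent.H375R3.Pol.Data

/-!
# A fully transitive self-dual equivelar polyhedron without polarity

The polyhedron is built from the group `⟨a, d | a² = d⁴ = (a d⁻¹ a d)⁴ = 1, adadad⁻¹adad²ad² = 1⟩`
of order 144. Its flags are the elements of the group; `a` is the exchange of the edge, and `d` or
`d⁻¹` (depending on the parity of the exponent sum of `d`) exchanges the vertex or the 2-face. The
elements with even exponent sum of `d` act from the left as automorphisms, the other ones as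
dualities. The group maps onto the cyclic group of order four with `d` going to a generator and `a`
to the identity, so no duality is an involution.
-/

set_option autoImplicit false

namespace Pool.Agent.Results.MP_1940b6_co.NoPolarity

/-- Two flags (maximal chains) differ in exactly one face. -/
def FlagAdj {P : Type} [PartialOrder P] (A B : Flag P) : Prop :=
  ((A : Set P) \ B).ncard = 1 ∧ ((B : Set P) \ A).ncard = 1

/-- The partially ordered set `P` with rank function `rk` is an abstract polyhedron: `rk` is strictly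
monotone onto `{-1, 0, 1, 2, 3}`, there are a least and a greatest face, every flag has exactly five
elements, the diamond condition holds, and any two flags are joined by a sequence of flags, each
differing from the next in exactly one face and each containing the common faces of the two. -/
structure IsPolyhedron {P : Type} [PartialOrder P] (rk : P → ℤ) : Prop where
  strictMono : StrictMono rk
  range : Set.range rk = {-1, 0, 1, 2, 3}
  least : ∃ F, rk F = -1 ∧ ∀ G, F ≤ G
  greatest : ∃ F, rk F = 3 ∧ ∀ G, G ≤ F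
  flag_card : ∀ Φ : Flag P, (Φ : Set P).ncard = 5
  diamond : ∀ F G, F ≤ G → rk G = rk F + 2 →
    {H | rk H = rk F + 1 ∧ F ≤ H ∧ H ≤ G}.ncard = 2
  connected : ∀ Φ Ψ : Flag P, Relation.ReflTransGen
    (fun A B : Flag P => FlagAdj A B ∧ (Φ : Set P) ∩ Ψ ⊆ B) Φ Ψ

/-- Equivelar of type `{p, q}`: every 2-face is a `p`-gon (it has `p` vertices and `p` edges) and
every vertex-figure is a `q`-gon (every vertex lies in `q` edges and `q` 2-faces). -/
def IsEquivelar {P : Type} [PartialOrder P] (rk : P → ℤ) (p q : ℕ) : Prop :=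
  (∀ F, rk F = 2 → {v | rk v = 0 ∧ v ≤ F}.ncard = p ∧ {e | rk e = 1 ∧ e ≤ F}.ncard = p) ∧
  (∀ v, rk v = 0 → {e | rk e = 1 ∧ v ≤ e}.ncard = q ∧ {F | rk F = 2 ∧ v ≤ F}.ncard = q)

/-- A duality: an order reversing bijection. -/
def IsDuality {P : Type} [PartialOrder P] (δ : P ≃ P) : Prop :=
  ∀ F G, F ≤ G ↔ δ G ≤ δ F

/-- A polarity: a duality whose square is the identity. -/
def IsPolarity {P : Type} [PartialOrder P] (δ : P ≃ P) : Prop :=
  IsDuality δ ∧ ∀ F, δ (δ F) = F

/-- The automorphism group is transitive on the faces of each rank. -/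
def FullyTransitive {P : Type} [PartialOrder P] (rk : P → ℤ) : Prop :=
  ∀ F G, rk F = rk G → ∃ g : P ≃o P, g F = G

/-- The number of orbits of the automorphism group on the flags. -/
noncomputable def flagOrbits (P : Type) [PartialOrder P] : ℕ :=
  Nat.card (Quot fun Φ Ψ : Flag P => ∃ g : P ≃o P, Flag.map g Φ = Ψ)

open H375.Pol H375.Pol.D

set_option maxRecDepth 100000

lemma good : Good 3 LL (0, 0) topE := good_of_chk (by decide +kernel)
lemma fd : FD LL RR := fd_of_chk (by decide +kernel)
lemma cert : certAll RR certs = true := by decide +kernel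
lemma autw : (∀ i ∈ autW, i < 3) ∧ run RR autW 0 = 0 ∧ diff RR (run RR autW base1) base1 = true := by
  decide +kernel
lemma lenR : RR.length = 144 := by decide +kernel

/-- the action of the three generating automorphisms on the flags -/
def act : ℕ → ℕ → ℕ
  | 0, k => G0.getD k 0
  | 1, k => G1.getD k 0
  | _, k => G2.getD k 0

lemma gens : Gens LL RR act := by
  have h0 := gen_of_chk good (R := RR) (T := T0) (G := G0) (by decide +kernel) (by decide +kernel)
  have h1 := gen_of_chk good (R := RR) (T := T1) (G := G1) (by decide +kernel) (by decide +kernel)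
  have h2 := gen_of_chk good (R := RR) (T := T2) (G := G2) (by decide +kernel) (by decide +kernel)
  constructor
  · intro i k hk
    match i with
    | 0 => exact h0.1 k hk
    | 1 => exact h1.1 k hk
    | (i + 2) => exact h2.1 k hk
  · intro i
    match i with
    | 0 => exact h0.2
    | 1 => exact h1.2
    | (i + 2) => exact h2.2

lemma orbs : orbChk RR act base1 orbW = true := by decide +kernel
lemma trs : transChk LL RR orbW = true := by decide +kernel
lemma anti : antiChk LL TD = true := by decide +kernel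

/-- counting elements of the list poset -/
lemma ncard_filter {L : List El} {b t : El} (h : Good 3 L b t) (p : El → Bool) :
    {z : PF L | p z.1 = true}.ncard = (L.filter p).length := by
  classical
  have h1 : (L.filter p).Nodup := h.nodup.filter _
  rw [← List.toFinset_card_of_nodup h1, ← Set.ncard_coe_finset]
  apply Set.ncard_congr (fun z _ => z.1)
  · intro z hz
    simp only [List.coe_toFinset]
    exact List.mem_filter.mpr ⟨z.2, hz⟩
  · intro z w _ _ he
    exact Subtype.ext he
  · intro z hz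
    simp only [List.coe_toFinset] at hz
    have hz' : z ∈ L.filter p := hz
    exact ⟨⟨z, (List.mem_filter.mp hz').1⟩, (List.mem_filter.mp hz').2, rfl⟩

def eqvChk (L : List El) (p : ℕ) : Bool :=
  L.all fun F => (!(Nat.beq F.1 3) ||
    (Nat.beq (L.filter fun x => Nat.beq x.1 1 && leB x F).length p &&
      Nat.beq (L.filter fun x => Nat.beq x.1 2 && leB x F).length p)) &&
    (!(Nat.beq F.1 1) ||
    (Nat.beq (L.filter fun x => Nat.beq x.1 2 && leB F x).length p &&
      Nat.beq (L.filter fun x => Nat.beq x.1 3 && leB F x).length p))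

lemma eqv : eqvChk LL 8 = true := by decide +kernel

instance ordP : PartialOrder (PF LL) := ordPF good

/-- the rank function -/
def rkP (x : PF LL) : ℤ := (x.1.1 : ℤ) - 1

lemma rkP_eq {x : PF LL} {k : ℕ} {z : ℤ} (hz : z = (k : ℤ) - 1) : rkP x = z ↔ x.1.1 = k := by
  unfold rkP
  rw [hz]
  omega

theorem isPolyhedron : IsPolyhedron rkP := by
  have hm : StrictMono rkP := by
    intro x y hxy
    have := (mkPoly good).rk_strictMono hxy
    show (x.1.1 : ℤ) - 1 < (y.1.1 : ℤ) - 1
    have h1 : x.1.1 < y.1.1 := this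
    omega
  have hle : ∀ x : PF LL, x.1.1 ≤ 4 := fun x => rk_le (mkPoly good) x
  have hp : 0 < RR.length := by rw [lenR]; norm_num
  refine ⟨hm, ?_, ?_, ?_, ?_, ?_, ?_⟩
  · ext z
    simp only [Set.mem_range, Set.mem_insert_iff, Set.mem_singleton_iff]
    constructor
    · rintro ⟨x, rfl⟩
      have := hle x
      unfold rkP
      omega
    · rintro (rfl | rfl | rfl | rfl | rfl)
      · exact ⟨⟨(0, 0), good.memb⟩, rfl⟩
      · exact ⟨⟨vt RR 0, fd.memv 0 hp⟩, (rkP_eq (k := 1) rfl).2 (fd.rkv 0 hp)⟩
      · exact ⟨⟨et RR 0, fd.meme 0 hp⟩, (rkP_eq (k := 2) rfl).2 (fd.rke 0 hp)⟩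
      · exact ⟨⟨ft RR 0, fd.memf 0 hp⟩, (rkP_eq (k := 3) rfl).2 (fd.rkf 0 hp)⟩
      · exact ⟨⟨topE, good.memt⟩, rfl⟩
  · exact ⟨⟨(0, 0), good.memb⟩, rfl, fun G => good.bot G.1 G.2⟩
  · exact ⟨⟨topE, good.memt⟩, rfl, fun G => good.top G.1 G.2⟩
  · intro Φ
    exact flag_ncard (mkPoly good).rk_strictMono (mkPoly good).flag_ranks Φ
  · intro F G hFG hr
    have hr' : G.1.1 = F.1.1 + 2 := by
      unfold rkP at hr; omega
    have hlt : F < G := by
      refine lt_of_le_of_ne hFG ?_
      rintro rfl
      omega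
    have h1 : (Set.Ioo F G).ncard = 2 := (mkPoly good).diamond F G hlt hr'
    rw [← h1]
    congr 1
    ext H
    constructor
    · rintro ⟨h2, h3, h4⟩
      refine ⟨lt_of_le_of_ne h3 ?_, lt_of_le_of_ne h4 ?_⟩
      · rintro rfl; omega
      · rintro rfl; omega
    · rintro ⟨h2, h3⟩
      refine ⟨?_, h2.le, h3.le⟩
      have := hm h2
      have := hm h3
      omega
  · intro Φ Ψ
    exact (mkPoly good).connected Φ Ψ

theorem isEquivelar : IsEquivelar rkP 8 8 := by
  have key := eqv
  unfold eqvChk at key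
  simp only [List.all_eq_true, Bool.and_eq_true] at key
  constructor
  · intro F hF
    have h1 := imp_of_or (key F.1 F.2).1 (by rw [Nat.beq_eq]; exact (rkP_eq (k := 3) rfl).1 hF)
    simp only [Bool.and_eq_true, Nat.beq_eq] at h1
    refine ⟨?_, ?_⟩
    · rw [← h1.1, ← ncard_filter good]
      congr 1
      ext x
      show (rkP x = 0 ∧ x ≤ F) ↔ ((Nat.beq x.1.1 1 && leB x.1 F.1) = true)
      rw [Bool.and_eq_true, Nat.beq_eq]
      exact and_congr (rkP_eq rfl) Iff.rfl
    · rw [← h1.2, ← ncard_filter good]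
      congr 1
      ext x
      show (rkP x = 1 ∧ x ≤ F) ↔ ((Nat.beq x.1.1 2 && leB x.1 F.1) = true)
      rw [Bool.and_eq_true, Nat.beq_eq]
      exact and_congr (rkP_eq rfl) Iff.rfl
  · intro F hF
    have h1 := imp_of_or (key F.1 F.2).2 (by rw [Nat.beq_eq]; exact (rkP_eq (k := 1) rfl).1 hF)
    simp only [Bool.and_eq_true, Nat.beq_eq] at h1
    refine ⟨?_, ?_⟩
    · rw [← h1.1, ← ncard_filter good]
      congr 1
      ext x
      show (rkP x = 1 ∧ F ≤ x) ↔ ((Nat.beq x.1.1 2 && leB F.1 x.1) = true)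
      rw [Bool.and_eq_true, Nat.beq_eq]
      exact and_congr (rkP_eq rfl) Iff.rfl
    · rw [← h1.2, ← ncard_filter good]
      congr 1
      ext x
      show (rkP x = 2 ∧ F ≤ x) ↔ ((Nat.beq x.1.1 3 && leB F.1 x.1) = true)
      rw [Bool.and_eq_true, Nat.beq_eq]
      exact and_congr (rkP_eq rfl) Iff.rfl

/-- an order automorphism from a bijection -/
def toIso {g : PF LL ≃ PF LL} (hg : Pre g) : PF LL ≃o PF LL where
  toEquiv := g
  map_rel_iff' := fun {x y} => (hg x y).symm

lemma pre_of_iso (g : PF LL ≃o PF LL) : Pre g.toEquiv := fun x y => (g.le_iff_le).symm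

theorem fullyTransitive : FullyTransitive rkP := by
  intro F G hFG
  have hp : 0 < RR.length := by rw [lenR]; norm_num
  have hb : base1 < RR.length := by rw [lenR]; decide
  obtain ⟨g, hg, hgx⟩ := trans_of_chk good fd gens hp hb orbs trs F G (by
    unfold rkP at hFG; omega)
  exact ⟨toIso hg, hgx⟩

/-- the flag `A` consists of the faces of the record `k` -/
def Has (A : Flag (PF LL)) (k : ℕ) : Prop :=
  (∀ x : PF LL, x.1 = vt RR k → x ∈ A) ∧ (∀ x : PF LL, x.1 = et RR k → x ∈ A) ∧
    (∀ x : PF LL, x.1 = ft RR k → x ∈ A)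

lemma exists_has (A : Flag (PF LL)) : ∃ k < RR.length, Has A k := by
  have hr := (mkPoly good).flag_ranks
  have hs := (mkPoly good).rk_strictMono
  obtain ⟨v, hv, hv1⟩ := flag_exists hr A (show 1 ≤ 3 + 1 by norm_num)
  obtain ⟨e, he, he1⟩ := flag_exists hr A (show 2 ≤ 3 + 1 by norm_num)
  obtain ⟨f, hf, hf1⟩ := flag_exists hr A (show 3 ≤ 3 + 1 by norm_num)
  have h1 : v < e := flag_lt hs A hv he (by omega)
  have h2 : e < f := flag_lt hs A he hf (by omega)
  obtain ⟨k, hk, h3, h4, h5⟩ := fd.comp _ v.2 _ e.2 _ f.2 hv1 he1 hf1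
    ((ordPF_lt good v e).mp h1) ((ordPF_lt good e f).mp h2)
  refine ⟨k, hk, ?_, ?_, ?_⟩
  · intro x hx
    have : x = v := Subtype.ext (hx.trans h3)
    rw [this]; exact hv
  · intro x hx
    have : x = e := Subtype.ext (hx.trans h4)
    rw [this]; exact he
  · intro x hx
    have : x = f := Subtype.ext (hx.trans h5)
    rw [this]; exact hf

lemma exists_flag {k : ℕ} (hk : k < RR.length) : ∃ A : Flag (PF LL), Has A k := by
  set V : PF LL := ⟨vt RR k, fd.memv k hk⟩ with hV
  set E : PF LL := ⟨et RR k, fd.meme k hk⟩ with hE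
  set F : PF LL := ⟨ft RR k, fd.memf k hk⟩ with hF
  have h1 : V < E := (ordPF_lt good V E).mpr (fd.lve k hk)
  have h2 : E < F := (ordPF_lt good E F).mpr (fd.lef k hk)
  have hc : IsChain (· ≤ ·) ({V, E, F} : Set (PF LL)) := by
    intro x hx y hy _
    simp only [Set.mem_insert_iff, Set.mem_singleton_iff] at hx hy
    have h3 := h1.trans h2
    rcases hx with rfl | rfl | rfl <;> rcases hy with rfl | rfl | rfl
    · exact Or.inl le_rfl
    · exact Or.inl h1.le
    · exact Or.inl h3.le
    · exact Or.inr h1.le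
    · exact Or.inl le_rfl
    · exact Or.inl h2.le
    · exact Or.inr h3.le
    · exact Or.inr h2.le
    · exact Or.inl le_rfl
  obtain ⟨A, hA⟩ := hc.exists_subset_flag
  refine ⟨A, ?_, ?_, ?_⟩
  · intro x hx
    have : x = V := Subtype.ext hx
    rw [this]; exact hA (by simp)
  · intro x hx
    have : x = E := Subtype.ext hx
    rw [this]; exact hA (by simp)
  · intro x hx
    have : x = F := Subtype.ext hx
    rw [this]; exact hA (by simp)

lemma map_of_aut {g : PF LL ≃ PF LL} (hg : Pre g) {A B : Flag (PF LL)} {k j : ℕ}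
    (hk : k < RR.length) (hj : j < RR.length) (hA : Has A k) (hB : Has B j)
    (h : AutAt RR g k j) : Flag.map (toIso hg) A = B := by
  have h1 := flag_transport (P := mkPoly good) (toIso hg) (B := A) (Φ := B)
    (v := ⟨vt RR k, fd.memv k hk⟩) (e := ⟨et RR k, fd.meme k hk⟩) (f := ⟨ft RR k, fd.memf k hk⟩)
    (hA.1 _ rfl) (hA.2.1 _ rfl) (hA.2.2 _ rfl) (fd.rkv k hk) (fd.rke k hk) (fd.rkf k hk)
    (hB.1 _ (h.1 _ rfl)) (hB.2.1 _ (h.2.1 _ rfl)) (hB.2.2 _ (h.2.2 _ rfl))
  apply SetLike.coe_injective
  rw [Flag.coe_map]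
  ext y
  constructor
  · rintro ⟨x, hx, rfl⟩
    exact (h1 x).1 hx
  · intro hy
    have h2 : (toIso hg) ((toIso hg).symm y) = y := (toIso hg).apply_symm_apply y
    refine ⟨(toIso hg).symm y, (h1 _).2 (h2.symm ▸ hy), h2⟩

lemma aut_of_map (g : PF LL ≃o PF LL) {A B : Flag (PF LL)} {k j : ℕ}
    (hk : k < RR.length) (hj : j < RR.length) (hA : Has A k) (hB : Has B j)
    (h : Flag.map g A = B) : AutAt RR g.toEquiv k j := by
  have hs := (mkPoly good).rk_strictMono
  have hmem : ∀ x, x ∈ A → g x ∈ B := by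
    intro x hx
    rw [← h]
    exact ⟨x, hx, rfl⟩
  have hrk : ∀ x : PF LL, (g x).1.1 = x.1.1 := fun x => (pre_of_iso g).rk good x
  refine ⟨?_, ?_, ?_⟩
  · intro x hx
    have h1 := hmem x (hA.1 x hx)
    have h2 := hB.1 ⟨vt RR j, fd.memv j hj⟩ rfl
    have h3 : g x = ⟨vt RR j, fd.memv j hj⟩ := flag_unique hs B h1 h2 (by
      show (g x).1.1 = (vt RR j).1
      rw [hrk, hx, fd.rkv k hk, fd.rkv j hj])
    show (g x).1 = _
    rw [h3]
  · intro x hx
    have h1 := hmem x (hA.2.1 x hx)
    have h2 := hB.2.1 ⟨et RR j, fd.meme j hj⟩ rfl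
    have h3 : g x = ⟨et RR j, fd.meme j hj⟩ := flag_unique hs B h1 h2 (by
      show (g x).1.1 = (et RR j).1
      rw [hrk, hx, fd.rke k hk, fd.rke j hj])
    show (g x).1 = _
    rw [h3]
  · intro x hx
    have h1 := hmem x (hA.2.2 x hx)
    have h2 := hB.2.2 ⟨ft RR j, fd.memf j hj⟩ rfl
    have h3 : g x = ⟨ft RR j, fd.memf j hj⟩ := flag_unique hs B h1 h2 (by
      show (g x).1.1 = (ft RR j).1
      rw [hrk, hx, fd.rkf k hk, fd.rkf j hj])
    show (g x).1 = _
    rw [h3]

theorem orbits_two : flagOrbits (PF LL) = 2 := by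
  have hp : 0 < RR.length := by rw [lenR]; norm_num
  have hb : base1 < RR.length := by rw [lenR]; decide
  obtain ⟨A0, hA0⟩ := exists_flag hp
  obtain ⟨A1, hA1⟩ := exists_flag hb
  unfold flagOrbits
  rw [Nat.card_eq_two_iff]
  refine ⟨Quot.mk _ A0, Quot.mk _ A1, ?_, ?_⟩
  · intro he
    let f : Flag (PF LL) → Prop := fun B => ∃ g : PF LL ≃o PF LL, Flag.map g A0 = B
    have hf : ∀ B C : Flag (PF LL), (∃ g : PF LL ≃o PF LL, Flag.map g B = C) → f B = f C := by
      rintro B C ⟨g, hg⟩
      apply propext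
      constructor
      · rintro ⟨g', hg'⟩
        refine ⟨g'.trans g, ?_⟩
        rw [← hg, ← hg']
        apply SetLike.coe_injective
        rw [Flag.coe_map, Flag.coe_map, Flag.coe_map, ← Set.image_comp]
        rfl
      · rintro ⟨g', hg'⟩
        refine ⟨g'.trans g.symm, ?_⟩
        apply SetLike.coe_injective
        rw [Flag.coe_map]
        have h1 : (C : Set (PF LL)) = g '' B := by rw [← hg, Flag.coe_map]
        have h2 : (C : Set (PF LL)) = g' '' A0 := by rw [← hg', Flag.coe_map]
        have h3 : (B : Set (PF LL)) = g.symm '' (C : Set (PF LL)) := by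
          rw [h1, g.symm_image_image]
        rw [h3, h2, ← Set.image_comp]
        rfl
    have h1 : Quot.lift f hf (Quot.mk _ A0) = Quot.lift f hf (Quot.mk _ A1) := by rw [he]
    have h2 : f A0 := ⟨OrderIso.refl _, by
      apply SetLike.coe_injective
      rw [Flag.coe_map]
      simp⟩
    have h3 : f A1 := by
      have h4 : f A0 = f A1 := h1
      rw [← h4]; exact h2
    obtain ⟨g, hg⟩ := h3
    exact no_aut good fd hp hb autw _ (pre_of_iso g) (aut_of_map g hp hb hA0 hA1 hg)
  · rw [Set.eq_univ_iff_forall]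
    intro q
    induction q using Quot.ind with
    | mk B =>
    obtain ⟨k, hk, hBk⟩ := exists_has B
    obtain ⟨g, hg, hgk⟩ := orb_of_chk fd gens hp hb orbs hk
    by_cases hc : (orbW.getD k (false, [])).1 = true
    · rw [if_pos hc] at hgk
      right
      exact (Quot.sound ⟨toIso hg, map_of_aut hg hb hk hA1 hBk hgk⟩).symm
    · rw [if_neg hc] at hgk
      left
      exact (Quot.sound ⟨toIso hg, map_of_aut hg hp hk hA0 hBk hgk⟩).symm

/-- There is a finite self-dual equivelar polyhedron of type `{8, 8}` whose automorphism group is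
transitive on the faces of each rank and has exactly two orbits on the flags, and which admits no
polarity. -/
theorem result : ∃ (P : Type) (_ : PartialOrder P) (rk : P → ℤ), Finite P ∧ IsPolyhedron rk ∧
    IsEquivelar rk 8 8 ∧ FullyTransitive rk ∧ flagOrbits P = 2 ∧
    (∃ δ : P ≃ P, IsDuality δ) ∧ ¬ ∃ δ : P ≃ P, IsPolarity δ := by
  refine ⟨PF LL, ordP, rkP, inferInstance, isPolyhedron, isEquivelar, fullyTransitive, orbits_two,
    ?_, ?_⟩
  · obtain ⟨δ, hδ⟩ := anti_of_chk good anti
    exact ⟨δ, hδ⟩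
  · rintro ⟨δ, hδ, hδ2⟩
    exact no_polarity good fd cert δ hδ hδ2

end Pool.Agent.Results.MP_1940b6_co.NoPolarity
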